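import Mathlib

/-!
# R-sequenceability of the semidihedral 2-groups

For every `n ≥ 4` the semidihedral group `SD_{2^n}` has an R-sequencing.  With `h = 2^(n-3)`,
`z k = 2h - k` for `k < h` and `z k = k - h + 1` for `h ≤ k < 2h`, the R-sequencing consists of the
blocks `a^(z k), a^(-z k), a^(2+3k) b, a^(-1-3k) b` for `k = 0, ..., 2h - 1`, where the first
element of the block `k = 0` is left out (`a^(2h) = a^(-2h)`).
-/

set_option autoImplicit false

namespace Pool.Agent.Results.MP_d3366a_al.SemidihedralRSequencing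

/-- `x 0, ..., x (M-1)` is an R-sequencing of the group `G`: these are all the non-identity
elements of `G`, each listed once, and the `M` cyclic quotients `x i ⁻¹ * x (i+1)` (the index
`i + 1` read modulo `M`) are pairwise distinct. -/
def IsRSequencing (G : Type*) [Group G] (M : ℕ) (x : ℕ → G) : Prop :=
  (∀ g : G, g ≠ 1 ↔ ∃ i, i < M ∧ x i = g) ∧
  (∀ i j, i < M → j < M → x i = x j → i = j) ∧
  (∀ i j, i < M → j < M →
    (x i)⁻¹ * x ((i + 1) % M) = (x j)⁻¹ * x ((j + 1) % M) → i = j)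

/-- A group is R-sequenceable if it has an R-sequencing. -/
def RSequenceable (G : Type*) [Group G] : Prop :=
  ∃ (M : ℕ) (x : ℕ → G), M + 1 = Nat.card G ∧ IsRSequencing G M x

/-- The relators of the semidihedral group of order `2^n`; the generator `0` is `a` and the
generator `1` is `b`. -/
def sdRels (n : ℕ) : Set (FreeGroup (Fin 2)) :=
  {FreeGroup.of 0 ^ (2 ^ (n - 1)), FreeGroup.of 1 ^ 2,
    FreeGroup.of 1 * FreeGroup.of 0 * (FreeGroup.of 1)⁻¹ *
      (FreeGroup.of 0 ^ (2 ^ (n - 2) - 1))⁻¹}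

/-- The semidihedral group `⟨a, b | a^(2^(n-1)) = b^2 = 1, b a b⁻¹ = a^(2^(n-2)-1)⟩`. -/
abbrev SD (n : ℕ) : Type := PresentedGroup (sdRels n)

/-! ## The general argument -/

/-- The numbers `z k`. -/
def zz (h k : ℕ) : ℤ := if k < h then 2 * (h : ℤ) - k else (k : ℤ) - h + 1

/-- The exponents of `a` in the R-sequencing. -/
def EE (h t : ℕ) : ℤ :=
  if t % 4 = 0 then zz h (t / 4)
  else if t % 4 = 1 then -zz h (t / 4)
  else if t % 4 = 2 then 2 + 3 * ((t / 4 : ℕ) : ℤ)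
  else -1 - 3 * ((t / 4 : ℕ) : ℤ)

/-- The exponents of `a` in the quotients. -/
def FF (h t : ℕ) : ℤ :=
  if t % 4 = 0 then -2 * zz h (t / 4)
  else if t % 4 = 1 then 2 + 3 * ((t / 4 : ℕ) : ℤ) + zz h (t / 4)
  else if t % 4 = 2 then 2 * (h : ℤ) + 3 + 6 * ((t / 4 : ℕ) : ℤ)
  else if t / 4 + 1 < h then 2 * (h : ℤ) - 2 * ((t / 4 : ℕ) : ℤ)
  else if t / 4 + 1 < 2 * h then 3 * (h : ℤ) - 3 - 4 * ((t / 4 : ℕ) : ℤ)
  else 2

lemma mult_cases (h : ℕ) (q : ℤ) :
    (h : ℤ) * q = 0 ∨ (h : ℤ) * q = h ∨ (h : ℤ) * q = -h ∨ (h : ℤ) * q = 2 * h ∨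
      (h : ℤ) * q = -2 * h ∨ 3 * (h : ℤ) ≤ h * q ∨ (h : ℤ) * q ≤ -3 * h := by
  have hh : (0 : ℤ) ≤ h := Int.natCast_nonneg h
  rcases lt_trichotomy q 0 with hq | hq | hq
  · rcases lt_or_ge q (-2) with h1 | h1
    · right; right; right; right; right; right
      have : (h : ℤ) * (q + 3) ≤ 0 := mul_nonpos_of_nonneg_of_nonpos hh (by omega)
      linarith [mul_add (h : ℤ) q 3]
    · have : q = -2 ∨ q = -1 := by omega
      rcases this with rfl | rfl
      · right; right; right; right; left; ring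
      · right; right; left; ring
  · left; rw [hq, mul_zero]
  · rcases lt_or_ge 2 q with h1 | h1
    · right; right; right; right; right; left
      have : 0 ≤ (h : ℤ) * (q - 3) := mul_nonneg hh (by omega)
      linarith [mul_sub (h : ℤ) q 3]
    · have : q = 2 ∨ q = 1 := by omega
      rcases this with rfl | rfl
      · right; right; right; left; ring
      · right; left; ring

lemma EE_inj {h s t : ℕ} (h2 : 2 ≤ h) (h3 : h % 3 ≠ 0) (hs : 1 ≤ s) (hs' : s < 8 * h)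
    (ht : 1 ≤ t) (ht' : t < 8 * h) (hst : s % 4 < 2 ↔ t % 4 < 2)
    (hd : (4 * (h : ℤ)) ∣ EE h s - EE h t) : s = t := by
  obtain ⟨q, hq⟩ := hd
  have hp := mult_cases h q
  have hq' : EE h s - EE h t = 4 * ((h : ℤ) * q) := by rw [hq]; ring
  generalize (h : ℤ) * q = p at hp hq'
  clear hq
  unfold EE zz at hq'
  split_ifs at hq' <;> omega

lemma FF_inj {h s t : ℕ} (h2 : 2 ≤ h) (hev : h % 2 = 0) (h3 : h % 3 ≠ 0) (hs : 1 ≤ s)
    (hs' : s < 8 * h) (ht : 1 ≤ t) (ht' : t < 8 * h) (hst : s % 2 = t % 2)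
    (hd : (4 * (h : ℤ)) ∣ FF h s - FF h t) : s = t := by
  obtain ⟨q, hq⟩ := hd
  have hp := mult_cases h q
  have hq' : FF h s - FF h t = 4 * ((h : ℤ) * q) := by rw [hq]; ring
  generalize (h : ℤ) * q = p at hp hq'
  clear hq
  unfold FF zz at hq'
  split_ifs at hq' <;> omega

/-- The element number `t` (`1 ≤ t < 8h`) of the R-sequencing. -/
def yy {G : Type*} [Group G] (a b : G) (h t : ℕ) : G :=
  a ^ EE h t * (if t % 4 < 2 then 1 else b)

section general

variable {G : Type*} [Group G] {a b : G} {h : ℕ}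

lemma zpow_eq_iff (ha : orderOf a = 4 * h) (i j : ℤ) :
    a ^ i = a ^ j ↔ (4 * (h : ℤ)) ∣ i - j := by
  rw [zpow_eq_zpow_iff_modEq, ha, Int.modEq_comm, Int.modEq_iff_dvd]
  push_cast
  rfl

lemma b_zpow (hab : b * a * b⁻¹ = a ^ (2 * (h : ℤ) - 1)) (i : ℤ) :
    b * a ^ i = a ^ ((2 * (h : ℤ) - 1) * i) * b := by
  have h1 : (b * a * b⁻¹) ^ i = b * a ^ i * b⁻¹ := conj_zpow
  rw [hab, ← zpow_mul] at h1
  rw [h1]
  group

lemma b_inv (hb : b * b = 1) : b⁻¹ = b := inv_eq_of_mul_eq_one_left hb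

/-- Quotients: the four types. -/
lemma quot00 (i j : ℤ) : (a ^ i * 1)⁻¹ * (a ^ j * 1) = a ^ (j - i) * 1 := by
  rw [mul_one, mul_one, mul_one, ← zpow_neg, ← zpow_add]; congr 1; ring

lemma quot01 (i j : ℤ) : (a ^ i * 1)⁻¹ * (a ^ j * b) = a ^ (j - i) * b := by
  rw [mul_one, ← zpow_neg, ← mul_assoc, ← zpow_add]; congr 2; ring

lemma quot10 (hb : b * b = 1) (hab : b * a * b⁻¹ = a ^ (2 * (h : ℤ) - 1)) (i j : ℤ) :
    (a ^ i * b)⁻¹ * (a ^ j * 1) = a ^ ((2 * (h : ℤ) - 1) * (j - i)) * b := by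
  rw [mul_one, mul_inv_rev, b_inv hb, ← zpow_neg, mul_assoc, ← zpow_add, b_zpow hab]
  congr 3; ring

lemma quot11 (hb : b * b = 1) (hab : b * a * b⁻¹ = a ^ (2 * (h : ℤ) - 1)) (i j : ℤ) :
    (a ^ i * b)⁻¹ * (a ^ j * b) = a ^ ((2 * (h : ℤ) - 1) * (j - i)) * 1 := by
  have h1 : (a ^ i * b)⁻¹ * (a ^ j * b) = (a ^ i * b)⁻¹ * (a ^ j * 1) * b := by
    rw [mul_one, mul_assoc]
  rw [h1, quot10 hb hab, mul_assoc, hb]

lemma eq_cases (ha : orderOf a = 4 * h) (hnb : ∀ i : ℤ, a ^ i ≠ b) {P Q : Prop}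
    [Decidable P] [Decidable Q] {i j : ℤ}
    (he : a ^ i * (if P then 1 else b) = a ^ j * (if Q then 1 else b)) :
    (P ↔ Q) ∧ (4 * (h : ℤ)) ∣ i - j := by
  by_cases hP : P <;> by_cases hQ : Q
  · rw [if_pos hP, if_pos hQ, mul_one, mul_one] at he
    exact ⟨⟨fun _ => hQ, fun _ => hP⟩, (zpow_eq_iff ha i j).1 he⟩
  · rw [if_pos hP, if_neg hQ, mul_one] at he
    exfalso
    apply hnb (i - j)
    rw [sub_eq_neg_add, zpow_add, he, zpow_neg, inv_mul_cancel_left]
  · rw [if_neg hP, if_pos hQ, mul_one] at he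
    exfalso
    apply hnb (j - i)
    rw [sub_eq_neg_add, zpow_add, ← he, zpow_neg, inv_mul_cancel_left]
  · rw [if_neg hP, if_neg hQ] at he
    exact ⟨⟨fun x => absurd x hP, fun x => absurd x hQ⟩,
      (zpow_eq_iff ha i j).1 (mul_right_cancel he)⟩

lemma yy_inj (h2 : 2 ≤ h) (h3 : h % 3 ≠ 0) (ha : orderOf a = 4 * h)
    (hnb : ∀ i : ℤ, a ^ i ≠ b) {s t : ℕ} (hs : 1 ≤ s) (hs' : s < 8 * h)
    (ht : 1 ≤ t) (ht' : t < 8 * h) (he : yy a b h s = yy a b h t) : s = t := by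
  obtain ⟨h4, h5⟩ := eq_cases ha hnb he
  exact EE_inj h2 h3 hs hs' ht ht' h4 h5

lemma yy_ne_one (h2 : 2 ≤ h) (ha : orderOf a = 4 * h)
    (hnb : ∀ i : ℤ, a ^ i ≠ b) {t : ℕ} (ht : 1 ≤ t) (ht' : t < 8 * h) :
    yy a b h t ≠ 1 := by
  intro he
  have he' : a ^ EE h t * (if t % 4 < 2 then 1 else b) =
      a ^ (0 : ℤ) * (if True then 1 else b) := by
    rw [if_pos trivial, zpow_zero, mul_one]; exact he
  obtain ⟨h4, q, hq⟩ := eq_cases ha hnb he'
  have h5 : t % 4 < 2 := h4.2 trivial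
  have hp := mult_cases h q
  have hq' : EE h t - 0 = 4 * ((h : ℤ) * q) := by rw [hq]; ring
  generalize (h : ℤ) * q = p at hp hq'
  clear hq
  unfold EE zz at hq'
  split_ifs at hq' <;> omega

/-- The quotients. -/
lemma yy_quot (h2 : 2 ≤ h) (hev : h % 2 = 0) (ha : orderOf a = 4 * h) (hb : b * b = 1)
    (hab : b * a * b⁻¹ = a ^ (2 * (h : ℤ) - 1)) {t : ℕ} (ht : 1 ≤ t) (ht' : t < 8 * h) :
    (yy a b h t)⁻¹ * yy a b h (if t + 1 = 8 * h then 1 else t + 1) =
      a ^ FF h t * (if t % 2 = 0 then 1 else b) := by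
  obtain ⟨k, j, hj, rfl⟩ : ∃ k j, j < 4 ∧ t = 4 * k + j :=
    ⟨t / 4, t % 4, Nat.mod_lt _ (by norm_num), by omega⟩
  have hk : k < 2 * h := by omega
  obtain ⟨g, rfl⟩ : ∃ g, h = 2 * g := ⟨h / 2, by omega⟩
  unfold yy EE FF
  have hdiv : (4 * k + j) / 4 = k := by omega
  have hmod : (4 * k + j) % 4 = j := by omega
  rw [hdiv, hmod]
  have hj' : j = 0 ∨ j = 1 ∨ j = 2 ∨ j = 3 := by omega
  rcases hj' with rfl | rfl | rfl | rfl
  · have e1 : ¬ (4 * k + 0 + 1 = 8 * (2 * g)) := by omega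
    have e2 : (4 * k + 0 + 1) % 4 = 1 := by omega
    have e3 : (4 * k + 0 + 1) / 4 = k := by omega
    have e4 : (4 * k + 0) % 2 = 0 := by omega
    rw [if_neg e1, e2, e3, e4]
    simp only [if_true, show (0 < 2) by norm_num, show (1 < 2) by norm_num,
      show ¬ (1 = 0) by norm_num, if_false]
    rw [quot00]
    congr 2
    ring
  · have e1 : ¬ (4 * k + 1 + 1 = 8 * (2 * g)) := by omega
    have e2 : (4 * k + 1 + 1) % 4 = 2 := by omega
    have e3 : (4 * k + 1 + 1) / 4 = k := by omega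
    have e4 : (4 * k + 1) % 2 = 1 := by omega
    rw [if_neg e1, e2, e3, e4]
    norm_num
    rw [← mul_assoc, ← zpow_add]
    congr 2
    ring
  · have e1 : ¬ (4 * k + 2 + 1 = 8 * (2 * g)) := by omega
    have e2 : (4 * k + 2 + 1) % 4 = 3 := by omega
    have e3 : (4 * k + 2 + 1) / 4 = k := by omega
    have e4 : (4 * k + 2) % 2 = 0 := by omega
    rw [if_neg e1, e2, e3, e4]
    have := quot11 hb hab (2 + 3 * (k : ℤ)) (-1 - 3 * (k : ℤ))
    simp only [show ¬ (2 = 0) by norm_num, show ¬ (2 = 1) by norm_num, if_false, if_true,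
      show ¬ (2 < 2) by norm_num, show ¬ (3 < 2) by norm_num, show ¬ (3 = 0) by norm_num,
      show ¬ (3 = 1) by norm_num, show ¬ (3 = 2) by norm_num]
    rw [this]
    congr 1
    rw [zpow_eq_iff ha]
    refine ⟨-2 - 3 * k, ?_⟩
    push_cast
    ring
  · have e4 : (4 * k + 3) % 2 = 1 := by omega
    rw [e4]
    simp only [show ¬ (3 < 2) by norm_num, show ¬ (3 = 0) by norm_num,
      show ¬ (3 = 1) by norm_num, show ¬ (3 = 2) by norm_num, show ¬ (1 = 0) by norm_num, if_false]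
    by_cases e1 : 4 * k + 3 + 1 = 8 * (2 * g)
    · have hk1 : k = 4 * g - 1 := by omega
      have e5 : ¬ (k + 1 < 2 * g) := by omega
      have e6 : ¬ (k + 1 < 2 * (2 * g)) := by omega
      rw [if_pos e1, if_neg e5, if_neg e6]
      have e7 : (1 % 4 = 0) = False := by norm_num
      have e9 : (1 % 4 < 2) = True := by norm_num
      have e10 : (1 / 4) = 0 := by norm_num
      simp only [e7, e9, if_false, if_true, e10]
      rw [quot10 hb hab]
      congr 1
      rw [zpow_eq_iff ha]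
      unfold zz
      rw [if_pos (by omega)]
      have hk2 : (k : ℤ) = 4 * g - 1 := by omega
      rw [hk2]
      refine ⟨4 * g - 2, ?_⟩
      push_cast
      ring
    · have e2 : (4 * k + 3 + 1) % 4 = 0 := by omega
      have e3 : (4 * k + 3 + 1) / 4 = k + 1 := by omega
      rw [if_neg e1, e2, e3]
      simp only [if_true, show (0 < 2) by norm_num]
      rw [quot10 hb hab]
      congr 1
      rw [zpow_eq_iff ha]
      unfold zz
      by_cases e5 : k + 1 < 2 * g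
      · rw [if_pos e5, if_pos e5]
        refine ⟨2 * g + k - 1, ?_⟩
        push_cast
        ring
      · rw [if_neg e5, if_neg e5, if_pos (by omega)]
        refine ⟨2 * k - g + 1, ?_⟩
        push_cast
        ring

/-- The order of the group. -/
lemma card_eq (h2 : 2 ≤ h) (ha : orderOf a = 4 * h) (hnb : ∀ i : ℤ, a ^ i ≠ b)
    (hgen : ∀ g : G, ∃ i : ℤ, g = a ^ i ∨ g = a ^ i * b) : Nat.card G = 8 * h := by
  have hbij : Function.Bijective
      (fun x : Fin (4 * h) × Bool => a ^ ((x.1 : ℕ) : ℤ) * (if x.2 = true then 1 else b)) := by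
    constructor
    · rintro ⟨i, s⟩ ⟨j, t⟩ he
      obtain ⟨h4, q, hq⟩ := eq_cases ha hnb he
      have hi := i.2
      have hj := j.2
      have hp := mult_cases h q
      have hq' : (((i : ℕ) : ℤ)) - ((j : ℕ) : ℤ) = 4 * ((h : ℤ) * q) := by
        have : (((i : ℕ) : ℤ)) - ((j : ℕ) : ℤ) = 4 * (h : ℤ) * q := hq
        rw [this]; ring
      generalize (h : ℤ) * q = p at hp hq'
      have h6 : (i : ℕ) = (j : ℕ) := by omega
      have h7 : s = t := by
        cases s <;> cases t <;> simp_all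
      rw [Prod.mk.injEq]
      exact ⟨Fin.ext h6, h7⟩
    · intro g
      obtain ⟨i, hi⟩ := hgen g
      have hpos : (0 : ℤ) < 4 * (h : ℤ) := by omega
      have h0 : 0 ≤ i % (4 * (h : ℤ)) := Int.emod_nonneg _ (by omega)
      have h1 : i % (4 * (h : ℤ)) < 4 * (h : ℤ) := Int.emod_lt_of_pos _ hpos
      have h8 : a ^ ((((i % (4 * (h : ℤ))).toNat : ℕ)) : ℤ) = a ^ i := by
        rw [zpow_eq_iff ha, Int.toNat_of_nonneg h0]
        exact ⟨-(i / (4 * (h : ℤ))), by
          have := Int.emod_add_mul_ediv i (4 * (h : ℤ)); linarith⟩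
      have h9 : (i % (4 * (h : ℤ))).toNat < 4 * h := by omega
      rcases hi with hi | hi
      · refine ⟨(⟨(i % (4 * (h : ℤ))).toNat, h9⟩, true), ?_⟩
        show a ^ ((((i % (4 * (h : ℤ))).toNat : ℕ)) : ℤ) * (if true = true then 1 else b) = g
        rw [h8, if_pos rfl, mul_one, hi]
      · refine ⟨(⟨(i % (4 * (h : ℤ))).toNat, h9⟩, false), ?_⟩
        show a ^ ((((i % (4 * (h : ℤ))).toNat : ℕ)) : ℤ) * (if false = true then 1 else b) = g
        rw [h8, if_neg (by simp), hi]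
  rw [← Nat.card_congr (Equiv.ofBijective _ hbij), Nat.card_prod, Nat.card_fin,
    Nat.card_eq_fintype_card, Fintype.card_bool]
  ring

/-- The general theorem. -/
theorem rSequenceable_of (h2 : 2 ≤ h) (hev : h % 2 = 0) (h3 : h % 3 ≠ 0)
    (ha : orderOf a = 4 * h) (hb : b * b = 1)
    (hab : b * a * b⁻¹ = a ^ (2 * (h : ℤ) - 1)) (hnb : ∀ i : ℤ, a ^ i ≠ b)
    (hgen : ∀ g : G, ∃ i : ℤ, g = a ^ i ∨ g = a ^ i * b) : RSequenceable G := by
  classical
  have hcard := card_eq h2 ha hnb hgen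
  have hfin : Finite G := Nat.finite_of_card_ne_zero (by omega)
  have hft : Fintype G := Fintype.ofFinite G
  refine ⟨8 * h - 1, fun i => yy a b h (i + 1), by omega, ?_, ?_, ?_⟩
  · have himg : (Finset.Ico 1 (8 * h)).image (yy a b h) = Finset.univ.erase (1 : G) := by
      apply Finset.eq_of_subset_of_card_le
      · intro g hg
        obtain ⟨t, ht, rfl⟩ := Finset.mem_image.1 hg
        rw [Finset.mem_Ico] at ht
        exact Finset.mem_erase.2 ⟨yy_ne_one h2 ha hnb ht.1 ht.2, Finset.mem_univ _⟩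
      · rw [Finset.card_erase_of_mem (Finset.mem_univ _), Finset.card_univ,
          ← Nat.card_eq_fintype_card, hcard, Finset.card_image_of_injOn, Nat.card_Ico]
        intro s hs t ht he
        rw [Finset.mem_coe, Finset.mem_Ico] at hs ht
        exact yy_inj h2 h3 ha hnb hs.1 hs.2 ht.1 ht.2 he
    intro g
    constructor
    · intro hg
      have : g ∈ Finset.univ.erase (1 : G) := Finset.mem_erase.2 ⟨hg, Finset.mem_univ _⟩
      rw [← himg] at this
      obtain ⟨t, ht, rfl⟩ := Finset.mem_image.1 this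
      rw [Finset.mem_Ico] at ht
      exact ⟨t - 1, by omega, by show yy a b h (t - 1 + 1) = _; rw [Nat.sub_add_cancel ht.1]⟩
    · rintro ⟨i, hi, rfl⟩
      exact yy_ne_one h2 ha hnb (by omega) (by omega)
  · intro i j hi hj he
    have := yy_inj h2 h3 ha hnb (s := i + 1) (t := j + 1) (by omega) (by omega) (by omega)
      (by omega) he
    omega
  · have hnext : ∀ i, i < 8 * h - 1 →
        (i + 1) % (8 * h - 1) + 1 = if (i + 1) + 1 = 8 * h then 1 else (i + 1) + 1 := by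
      intro i hi
      by_cases hc : i + 1 + 1 = 8 * h
      · have : i + 1 = 8 * h - 1 := by omega
        rw [if_pos hc, this, Nat.mod_self]
      · rw [if_neg hc, Nat.mod_eq_of_lt (by omega)]
    intro i j hi hj he
    have he2 : (yy a b h (i + 1))⁻¹ * yy a b h ((i + 1) % (8 * h - 1) + 1) =
      (yy a b h (j + 1))⁻¹ * yy a b h ((j + 1) % (8 * h - 1) + 1) := he
    rw [hnext i hi, hnext j hj, yy_quot h2 hev ha hb hab (by omega) (by omega),
      yy_quot h2 hev ha hb hab (by omega) (by omega)] at he2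
    obtain ⟨h4, h5⟩ := eq_cases ha hnb he2
    have := FF_inj h2 hev h3 (s := i + 1) (t := j + 1) (by omega) (by omega) (by omega)
      (by omega) (by omega) h5
    omega

end general

/-! ## The semidihedral group -/

section sd

variable {n : ℕ}

/-- The generator `a`. -/
def ga (n : ℕ) : SD n := PresentedGroup.of 0
/-- The generator `b`. -/
def gb (n : ℕ) : SD n := PresentedGroup.of 1

lemma rel1 (n : ℕ) : ga n ^ (2 ^ (n - 1)) = 1 := by
  have := PresentedGroup.one_of_mem (rels := sdRels n)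
    (x := FreeGroup.of 0 ^ (2 ^ (n - 1))) (by unfold sdRels; simp)
  rw [map_pow] at this
  exact this

lemma rel2 (n : ℕ) : gb n ^ 2 = 1 := by
  have := PresentedGroup.one_of_mem (rels := sdRels n)
    (x := FreeGroup.of 1 ^ 2) (by unfold sdRels; simp)
  rw [map_pow] at this
  exact this

lemma rel3 (n : ℕ) : gb n * ga n * (gb n)⁻¹ = ga n ^ (2 ^ (n - 2) - 1) := by
  have := PresentedGroup.one_of_mem (rels := sdRels n)
    (x := FreeGroup.of 1 * FreeGroup.of 0 * (FreeGroup.of 1)⁻¹ *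
      (FreeGroup.of 0 ^ (2 ^ (n - 2) - 1))⁻¹) (by unfold sdRels; simp)
  rw [map_mul, map_inv, map_mul, map_mul, map_inv, map_pow, mul_inv_eq_one] at this
  exact this

/-- Translation by `1`. -/
def pa (h : ℕ) : Equiv.Perm (ZMod (4 * h)) := Equiv.addRight 1

lemma rr_sq (h : ℕ) : ((2 * h : ℕ) - 1 : ZMod (4 * h)) * ((2 * h : ℕ) - 1) = 1 := by
  have h1 : ((4 * h : ℕ) : ZMod (4 * h)) = 0 := ZMod.natCast_self _
  have h2 : ((2 * h : ℕ) - 1 : ZMod (4 * h)) * ((2 * h : ℕ) - 1) =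
      ((4 * h : ℕ) : ZMod (4 * h)) * ((h : ZMod (4 * h)) - 1) + 1 := by
    push_cast; ring
  rw [h2, h1, zero_mul, zero_add]

/-- Multiplication by `2h - 1`. -/
def pb (h : ℕ) : Equiv.Perm (ZMod (4 * h)) where
  toFun x := ((2 * h : ℕ) - 1) * x
  invFun x := ((2 * h : ℕ) - 1) * x
  left_inv x := by
    show ((2 * h : ℕ) - 1 : ZMod (4 * h)) * (((2 * h : ℕ) - 1) * x) = x
    rw [← mul_assoc, rr_sq, one_mul]
  right_inv x := by
    show ((2 * h : ℕ) - 1 : ZMod (4 * h)) * (((2 * h : ℕ) - 1) * x) = x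
    rw [← mul_assoc, rr_sq, one_mul]

lemma pa_pow (h k : ℕ) (x : ZMod (4 * h)) : (pa h ^ k) x = x + k := by
  induction k generalizing x with
  | zero => rw [pow_zero, Nat.cast_zero, add_zero]; rfl
  | succ k ih =>
    rw [pow_succ, Equiv.Perm.mul_apply, ih]
    have : pa h x = x + 1 := rfl
    rw [this, Nat.cast_succ]
    ring

lemma pa_zpow (h : ℕ) (k : ℤ) (x : ZMod (4 * h)) : (pa h ^ k) x = x + k := by
  cases k with
  | ofNat k =>
    rw [Int.ofNat_eq_natCast, zpow_natCast, pa_pow, Int.cast_natCast]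
  | negSucc k =>
    rw [zpow_negSucc, Equiv.Perm.inv_eq_iff_eq, pa_pow, Int.cast_negSucc]
    ring

lemma pb_apply (h : ℕ) (x : ZMod (4 * h)) : pb h x = ((2 * h : ℕ) - 1) * x := rfl

/-- The images of the generators. -/
def fgen (h : ℕ) : Fin 2 → Equiv.Perm (ZMod (4 * h)) := ![pa h, pb h]

lemma fgen_rel {h : ℕ} (hn : 4 ≤ n) (hh : h = 2 ^ (n - 3)) :
    ∀ r ∈ sdRels n, FreeGroup.lift (fgen h) r = 1 := by
  have e1 : 2 ^ (n - 1) = 4 * h := by
    rw [hh, show (4 : ℕ) = 2 ^ 2 by norm_num, ← pow_add]; congr 1; omega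
  have e2 : 2 ^ (n - 2) = 2 * h := by
    rw [hh, ← pow_succ']; congr 1; omega
  have hpos : 0 < h := by rw [hh]; positivity
  intro r hr
  unfold sdRels at hr
  rw [Set.mem_insert_iff, Set.mem_insert_iff, Set.mem_singleton_iff] at hr
  rcases hr with rfl | rfl | rfl
  · rw [map_pow, FreeGroup.lift_apply_of]
    ext x
    show (pa h ^ (2 ^ (n - 1))) x = x
    rw [pa_pow, e1, ZMod.natCast_self, add_zero]
  · rw [map_pow, FreeGroup.lift_apply_of]
    ext x
    show (pb h ^ 2) x = x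
    rw [sq, Equiv.Perm.mul_apply, pb_apply, pb_apply, ← mul_assoc, rr_sq, one_mul]
  · rw [map_mul, map_inv, map_mul, map_mul, map_inv, map_pow, FreeGroup.lift_apply_of,
      FreeGroup.lift_apply_of, mul_inv_eq_one, mul_inv_eq_iff_eq_mul]
    show pb h * pa h = pa h ^ (2 ^ (n - 2) - 1) * pb h
    ext x
    rw [Equiv.Perm.mul_apply, Equiv.Perm.mul_apply, pa_pow, pb_apply, pb_apply, e2,
      Nat.cast_sub (by omega : 1 ≤ 2 * h)]
    have : pa h x = x + 1 := rfl
    rw [this]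
    push_cast
    ring

/-- The homomorphism to the permutations of `ZMod (4h)`. -/
def toPerm {h : ℕ} (hn : 4 ≤ n) (hh : h = 2 ^ (n - 3)) : SD n →* Equiv.Perm (ZMod (4 * h)) :=
  PresentedGroup.toGroup (fgen_rel hn hh)

lemma toPerm_a {h : ℕ} (hn : 4 ≤ n) (hh : h = 2 ^ (n - 3)) : toPerm hn hh (ga n) = pa h := by
  unfold toPerm ga
  rw [PresentedGroup.toGroup.of]
  rfl

lemma toPerm_b {h : ℕ} (hn : 4 ≤ n) (hh : h = 2 ^ (n - 3)) : toPerm hn hh (gb n) = pb h := by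
  unfold toPerm gb
  rw [PresentedGroup.toGroup.of]
  rfl

lemma orderOf_ga {h : ℕ} (hn : 4 ≤ n) (hh : h = 2 ^ (n - 3)) : orderOf (ga n) = 4 * h := by
  have e1 : 2 ^ (n - 1) = 4 * h := by
    rw [hh, show (4 : ℕ) = 2 ^ 2 by norm_num, ← pow_add]; congr 1; omega
  apply Nat.dvd_antisymm
  · rw [← e1]; exact orderOf_dvd_of_pow_eq_one (rel1 n)
  · have h1 : toPerm hn hh (ga n ^ orderOf (ga n)) = 1 := by rw [pow_orderOf_eq_one, map_one]
    rw [map_pow, toPerm_a] at h1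
    have h2 : (pa h ^ orderOf (ga n)) 0 = 0 := by rw [h1]; rfl
    rw [pa_pow, zero_add] at h2
    exact (ZMod.natCast_eq_zero_iff _ _).1 h2

lemma ga_ne_gb {h : ℕ} (hn : 4 ≤ n) (hh : h = 2 ^ (n - 3)) (i : ℤ) : ga n ^ i ≠ gb n := by
  have hh2 : 2 ≤ h := by
    rw [hh]
    calc 2 = 2 ^ 1 := by norm_num
      _ ≤ 2 ^ (n - 3) := Nat.pow_le_pow_right (by norm_num) (by omega)
  intro he
  have h1 : toPerm hn hh (ga n ^ i) = toPerm hn hh (gb n) := by rw [he]
  rw [map_zpow, toPerm_a, toPerm_b] at h1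
  have h2 : (pa h ^ i) 0 = pb h 0 := by rw [h1]
  have h3 : (pa h ^ i) 1 = pb h 1 := by rw [h1]
  rw [pa_zpow, pb_apply, mul_zero, zero_add] at h2
  rw [pa_zpow, pb_apply, mul_one, h2, add_zero] at h3
  have h4 : ((2 * h - 2 : ℕ) : ZMod (4 * h)) = 0 := by
    rw [Nat.cast_sub (by omega)]
    push_cast
    push_cast at h3
    linear_combination -h3
  rw [ZMod.natCast_eq_zero_iff] at h4
  have := Nat.le_of_dvd (by omega) h4
  omega

lemma sd_gen {h : ℕ} (hb : gb n * gb n = 1)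
    (hab : gb n * ga n * (gb n)⁻¹ = ga n ^ (2 * (h : ℤ) - 1)) (g : SD n) :
    ∃ i : ℤ, g = ga n ^ i ∨ g = ga n ^ i * gb n := by
  have hg : g ∈ Subgroup.closure (Set.range (PresentedGroup.of : Fin 2 → SD n)) := by
    rw [PresentedGroup.closure_range_of]; trivial
  refine Subgroup.closure_induction (p := fun g _ => ∃ i : ℤ, g = ga n ^ i ∨ g = ga n ^ i * gb n)
    ?_ ?_ ?_ ?_ hg
  · rintro x ⟨i, rfl⟩
    fin_cases i
    · exact ⟨1, Or.inl (by rw [zpow_one]; rfl)⟩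
    · exact ⟨0, Or.inr (by rw [zpow_zero, one_mul]; rfl)⟩
  · exact ⟨0, Or.inl (by rw [zpow_zero])⟩
  · rintro x y _ _ ⟨i, hi⟩ ⟨j, hj⟩
    rcases hi with rfl | rfl <;> rcases hj with rfl | rfl
    · exact ⟨i + j, Or.inl (zpow_add _ _ _).symm⟩
    · exact ⟨i + j, Or.inr (by rw [zpow_add, mul_assoc])⟩
    · exact ⟨i + (2 * (h : ℤ) - 1) * j, Or.inr (by
        rw [zpow_add, mul_assoc, mul_assoc, b_zpow hab])⟩
    · exact ⟨i + (2 * (h : ℤ) - 1) * j, Or.inl (by
        rw [mul_assoc, ← mul_assoc (gb n), b_zpow hab, mul_assoc, hb, mul_one, zpow_add])⟩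
  · rintro x _ ⟨i, hi⟩
    rcases hi with rfl | rfl
    · exact ⟨-i, Or.inl (zpow_neg _ _).symm⟩
    · exact ⟨(2 * (h : ℤ) - 1) * (-i), Or.inr (by
        rw [mul_inv_rev, b_inv hb, ← zpow_neg, b_zpow hab])⟩

end sd

/-- **Main result.** For every `n ≥ 4` the semidihedral group `SD_{2^n}` (given by its
presentation; it has order `2^n`) is R-sequenceable. -/
theorem result (n : ℕ) (hn : 4 ≤ n) : Nat.card (SD n) = 2 ^ n ∧ RSequenceable (SD n) := by
  obtain ⟨h, hh⟩ : ∃ h, h = 2 ^ (n - 3) := ⟨_, rfl⟩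
  have h2 : 2 ≤ h := by
    rw [hh]
    calc 2 = 2 ^ 1 := by norm_num
      _ ≤ 2 ^ (n - 3) := Nat.pow_le_pow_right (by norm_num) (by omega)
  have hev : h % 2 = 0 := by
    rw [hh, show n - 3 = (n - 4) + 1 by omega, pow_succ]; omega
  have h3 : h % 3 ≠ 0 := by
    intro hc
    have h4 : 3 ∣ 2 ^ (n - 3) := by rw [← hh]; exact Nat.dvd_of_mod_eq_zero hc
    have h5 := Nat.Prime.dvd_of_dvd_pow Nat.prime_three h4
    revert h5
    decide
  have e2 : 2 ^ (n - 2) = 2 * h := by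
    rw [hh, ← pow_succ']; congr 1; omega
  have e3 : 2 ^ n = 8 * h := by
    rw [hh, show (8 : ℕ) = 2 ^ 3 by norm_num, ← pow_add]; congr 1; omega
  have hb : gb n * gb n = 1 := by rw [← sq]; exact rel2 n
  have hab : gb n * ga n * (gb n)⁻¹ = ga n ^ (2 * (h : ℤ) - 1) := by
    rw [rel3, e2, ← zpow_natCast, Nat.cast_sub (by omega)]
    push_cast
    rfl
  have ha := orderOf_ga hn hh
  have hnb := ga_ne_gb hn hh
  have hgen := sd_gen hb hab
  exact ⟨by rw [e3]; exact card_eq h2 ha hnb hgen,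
    rSequenceable_of h2 hev h3 ha hb hab hnb hgen⟩

end Pool.Agent.Results.MP_d3366a_al.SemidihedralRSequencing
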